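import Pool.Agent.Helper43_HAM.Stmts

/-! LIN: cube insertion for edge lists. -/

namespace Pool.Agent.HAM.H93

theorem mem_piece (N : ℕ) (c : Fin 3 → ℕ) (u v : ℕ) : (u, v) ∈ piece N c ↔
    (∃ i : Fin 3, u = N + 3 + i ∧ v = c i) ∨
      ∃ i j : Fin 3, i ≠ j ∧ u = N + 3 + i ∧ v = N + j := by
  simp only [piece, List.mem_cons, Prod.mk.injEq, List.not_mem_nil, or_false]
  constructor
  · rintro (⟨h, h'⟩ | ⟨h, h'⟩ | ⟨h, h'⟩ | ⟨h, h'⟩ | ⟨h, h'⟩ | ⟨h, h'⟩ | ⟨h, h'⟩ | ⟨h, h'⟩ | ⟨h, h'⟩)
    · exact Or.inl ⟨0, h, h'⟩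
    · exact Or.inl ⟨1, h, h'⟩
    · exact Or.inl ⟨2, h, h'⟩
    · exact Or.inr ⟨0, 1, by decide, h, h'⟩
    · exact Or.inr ⟨0, 2, by decide, h, h'⟩
    · exact Or.inr ⟨1, 0, by decide, h, h'⟩
    · exact Or.inr ⟨1, 2, by decide, h, h'⟩
    · exact Or.inr ⟨2, 0, by decide, h, h'⟩
    · exact Or.inr ⟨2, 1, by decide, h, h'⟩
  · rintro (⟨i, h, h'⟩ | ⟨i, j, hij, h, h'⟩)
    · fin_cases i <;> simp_all
    · fin_cases i <;> fin_cases j <;> simp_all

theorem mem_tri (c : Fin 3 → ℕ) (u v : ℕ) : (u, v) ∈ tri c ↔ u = 0 ∧ ∃ i, v = c i := by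
  simp only [tri, List.mem_cons, Prod.mk.injEq, List.not_mem_nil, or_false]
  constructor
  · rintro (⟨h, h'⟩ | ⟨h, h'⟩ | ⟨h, h'⟩)
    · exact ⟨h, 0, h'⟩
    · exact ⟨h, 1, h'⟩
    · exact ⟨h, 2, h'⟩
  · rintro ⟨h, i, h'⟩
    fin_cases i <;> simp_all

theorem mem_tri' (N u v : ℕ) : (u, v) ∈ tri ![N, N + 1, N + 2] ↔ u = 0 ∧ ∃ i : Fin 3, v = N + i := by
  rw [mem_tri]
  constructor
  · rintro ⟨h, i, h'⟩
    refine ⟨h, i, ?_⟩
    fin_cases i <;> simp_all
  · rintro ⟨h, i, h'⟩
    refine ⟨h, i, ?_⟩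
    fin_cases i <;> simp_all

section

variable (L : List (ℕ × ℕ)) (N : ℕ) (c : Fin 3 → ℕ)

/-- the new list -/
def L' : List (ℕ × ℕ) := L ++ piece N c ++ tri ![N, N + 1, N + 2]

theorem mem_L' (u v : ℕ) : (u, v) ∈ L' L N c ↔ (u, v) ∈ L ∨
    (∃ i : Fin 3, u = N + 3 + i ∧ v = c i) ∨
      (∃ i j : Fin 3, i ≠ j ∧ u = N + 3 + i ∧ v = N + j) ∨ (u = 0 ∧ ∃ i : Fin 3, v = N + i) := by
  unfold L'
  rw [List.mem_append, List.mem_append, mem_piece, mem_tri']
  simp only [or_assoc]

end

theorem lin_simp (L : List (ℕ × ℕ)) (N : ℕ) (c : Fin 3 → ℕ) (h0 : ∀ p ∈ L, p.1 ≠ 0 ∧ p.2 ≠ 0)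
    (hc0 : ∀ i, c i ≠ 0) (hS : Simp (L ++ tri c)) (hN : 0 < N) (hcN : ∀ i, c i < N)
    (hLN : ∀ p ∈ L, p.1 < N ∧ p.2 < N) :
    Simp (L ++ piece N c ++ tri ![N, N + 1, N + 2]) := by
  have hl : ∀ p ∈ L' L N c, p.1 ≠ p.2 := by
    rintro ⟨u, v⟩ hp
    rw [mem_L'] at hp
    show u ≠ v
    rcases hp with h | ⟨i, h, h'⟩ | ⟨i, j, hij, h, h'⟩ | ⟨h, i, h'⟩
    · exact hS.2 (u, v) (List.mem_append_left _ h)
    · have := hcN i
      omega
    · have := j.2
      omega
    · omega
  refine ⟨?_, hl⟩
  rw [List.append_assoc, List.pairwise_append]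
  refine ⟨(List.pairwise_append.1 hS.1).1, ?_, ?_⟩
  · have e0 := hcN 0
    have e1 := hcN 1
    have e2 := hcN 2
    have f0 := hc0 0
    have f1 := hc0 1
    have f2 := hc0 2
    simp only [piece, tri, List.cons_append, List.nil_append, List.pairwise_cons, List.mem_cons,
      List.not_mem_nil, or_false, forall_eq_or_imp, forall_eq, ne_eq, Prod.mk.injEq, Prod.swap,
      not_and, Matrix.cons_val_zero, Matrix.cons_val_one, Matrix.cons_val]
    refine ⟨?_, ?_, ?_, ?_, ?_, ?_, ?_, ?_, ?_, ?_, ?_, fun _ h => h.elim, List.Pairwise.nil⟩ <;>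
      omega
  · rintro ⟨u, v⟩ hp ⟨u', v'⟩ hq
    obtain ⟨h1, h2⟩ := hLN _ hp
    obtain ⟨h3, h4⟩ := h0 _ hp
    simp only at h1 h2 h3 h4
    rw [List.mem_append, mem_piece, mem_tri'] at hq
    simp only [ne_eq, Prod.mk.injEq, Prod.swap_prod_mk, not_and]
    rcases hq with (⟨i, h, h'⟩ | ⟨i, j, hij, h, h'⟩) | ⟨h, i, h'⟩
    · constructor <;> intro <;> omega
    · constructor <;> intro <;> omega
    · constructor <;> intro <;> omega

theorem occurs_iff (l : List (ℕ × ℕ)) (w : ℕ) :
    Occurs l w ↔ ∃ u v, (u, v) ∈ l ∧ (w = u ∨ w = v) := by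
  unfold Occurs
  constructor
  · rintro ⟨⟨u, v⟩, h, h'⟩
    exact ⟨u, v, h, h'⟩
  · rintro ⟨u, v, h, h'⟩
    exact ⟨(u, v), h, h'⟩

theorem occurs_L' (L : List (ℕ × ℕ)) (N : ℕ) (c : Fin 3 → ℕ)
    (hO : ∀ v, Occurs (L ++ tri c) v ↔ v < N) (w : ℕ) : Occurs (L' L N c) w ↔ w < N + 6 := by
  have hin : ∀ u v, (u, v) ∈ L ++ tri c → u < N ∧ v < N := fun u v h =>
    ⟨(hO u).1 ⟨(u, v), h, Or.inl rfl⟩, (hO v).1 ⟨(u, v), h, Or.inr rfl⟩⟩
  have hcN : ∀ i, c i < N := fun i =>
    (hin 0 (c i) (List.mem_append_right _ ((mem_tri c 0 (c i)).2 ⟨rfl, i, rfl⟩))).2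
  have hN : 0 < N := lt_of_le_of_lt (Nat.zero_le _) (hcN 0)
  rw [occurs_iff]
  constructor
  · rintro ⟨u, v, h, hw⟩
    rw [mem_L'] at h
    rcases h with h | ⟨i, h, h'⟩ | ⟨i, j, hij, h, h'⟩ | ⟨h, i, h'⟩
    · have := hin u v (List.mem_append_left _ h)
      omega
    · have := hcN i
      have := i.2
      omega
    · have := i.2
      have := j.2
      omega
    · have := i.2
      omega
  · intro hw
    by_cases h1 : w < N
    · obtain ⟨u, v, h, h'⟩ := (occurs_iff _ _).1 ((hO w).2 h1)
      rw [List.mem_append, mem_tri] at h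
      rcases h with h | ⟨h, i, h2⟩
      · exact ⟨u, v, (mem_L' L N c u v).2 (Or.inl h), h'⟩
      · rcases h' with h' | h'
        · exact ⟨0, N + (0 : Fin 3), (mem_L' L N c _ _).2 (Or.inr (Or.inr (Or.inr ⟨rfl, 0, rfl⟩))),
            Or.inl (by omega)⟩
        · exact ⟨N + 3 + i, c i, (mem_L' L N c _ _).2 (Or.inr (Or.inl ⟨i, rfl, rfl⟩)),
            Or.inr (by omega)⟩
    · by_cases h2 : w < N + 3
      · refine ⟨0, N + (⟨w - N, by omega⟩ : Fin 3),
          (mem_L' L N c _ _).2 (Or.inr (Or.inr (Or.inr ⟨rfl, _, rfl⟩))), Or.inr ?_⟩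
        show w = N + (w - N)
        omega
      · refine ⟨N + 3 + (⟨w - N - 3, by omega⟩ : Fin 3), c ⟨w - N - 3, by omega⟩,
          (mem_L' L N c _ _).2 (Or.inr (Or.inl ⟨_, rfl, rfl⟩)), Or.inl ?_⟩
        show w = N + 3 + (w - N - 3)
        omega

/-- numbers of the vertices -/
def code {P : ℕ → Prop} (N : ℕ) : {v : ℕ // P v} ⊕ Fin 3 × Bool → ℕ
  | .inl v => v.1
  | .inr (i, b) => N + i + 3 * b.toNat

theorem code_inj {P : ℕ → Prop} (N : ℕ) (hP : ∀ v, P v ↔ v < N) :
    Function.Injective (code (P := P) N) := by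
  rintro (⟨u, hu⟩ | ⟨i, b⟩) (⟨v, hv⟩ | ⟨j, b'⟩) h
  · simp only [code] at h
    subst h
    rfl
  · simp only [code] at h
    have := (hP u).1 hu
    omega
  · simp only [code] at h
    have := (hP v).1 hv
    omega
  · simp only [code] at h
    have h1 := i.2
    have h2 := j.2
    cases b <;> cases b' <;> simp only [Bool.toNat_false, Bool.toNat_true] at h
    · have : i = j := Fin.ext (by omega)
      rw [this]
    · omega
    · omega
    · have : i = j := Fin.ext (by omega)
      rw [this]

theorem code_lt {P : ℕ → Prop} (N : ℕ) (hP : ∀ v, P v ↔ v < N)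
    (a : {v : ℕ // P v} ⊕ Fin 3 × Bool) : code N a < N + 6 := by
  rcases a with (⟨u, hu⟩ | ⟨i, b⟩)
  · have := (hP u).1 hu
    show u < N + 6
    omega
  · have h1 := i.2
    show N + (i : ℕ) + 3 * b.toNat < N + 6
    cases b <;> simp only [Bool.toNat_false, Bool.toNat_true] <;> omega

theorem code_surj {P : ℕ → Prop} (N : ℕ) (hP : ∀ v, P v ↔ v < N) (w : ℕ) (hw : w < N + 6) :
    ∃ a : {v : ℕ // P v} ⊕ Fin 3 × Bool, code N a = w := by
  by_cases h1 : w < N
  · exact ⟨.inl ⟨w, (hP w).2 h1⟩, rfl⟩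
  · by_cases h2 : w < N + 3
    · refine ⟨.inr (⟨w - N, by omega⟩, false), ?_⟩
      show N + (w - N) + 3 * 0 = w
      omega
    · refine ⟨.inr (⟨w - N - 3, by omega⟩, true), ?_⟩
      show N + (w - N - 3) + 3 * 1 = w
      omega

theorem lin : LinStmt := by
  intro L N c h0 hcinj hc0 hS hO
  have hin : ∀ u v, (u, v) ∈ L ++ tri c → u < N ∧ v < N := fun u v h =>
    ⟨(hO u).1 ⟨(u, v), h, Or.inl rfl⟩, (hO v).1 ⟨(u, v), h, Or.inr rfl⟩⟩
  have hcN : ∀ i, c i < N := fun i =>
    (hin 0 (c i) (List.mem_append_right _ ((mem_tri c 0 (c i)).2 ⟨rfl, i, rfl⟩))).2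
  have hN : 0 < N := lt_of_le_of_lt (Nat.zero_le _) (hcN 0)
  have hLN : ∀ p ∈ L, p.1 < N ∧ p.2 < N := fun p hp => hin p.1 p.2 (List.mem_append_left _ hp)
  have hS' := lin_simp L N c h0 hc0 hS hN hcN hLN
  have hO' : ∀ v, Occurs (L ++ piece N c ++ tri ![N, N + 1, N + 2]) v ↔ v < N + 6 :=
    occurs_L' L N c hO
  refine ⟨?_, hS', hO', ?_⟩
  · rintro ⟨u, v⟩ hp
    rw [List.mem_append, mem_piece] at hp
    rcases hp with h | ⟨i, h, h'⟩ | ⟨i, j, hij, h, h'⟩
    · exact h0 _ h
    · have := hc0 i
      exact ⟨by simp only; omega, by simp only; omega⟩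
    · exact ⟨by simp only; omega, by simp only; omega⟩
  · intro x n hx hn
    constructor
    · ext y
      rw [SimpleGraph.mem_neighborSet, Set.mem_range]
      show (x ≠ y ∧ ((x.1, y.1) ∈ L ++ tri c ∨ (y.1, x.1) ∈ L ++ tri c)) ↔ _
      constructor
      · rintro ⟨h1, h2 | h2⟩
        · rw [List.mem_append, mem_tri] at h2
          rcases h2 with h2 | ⟨-, i, h2⟩
          · exact absurd hx (h0 _ h2).1
          · exact ⟨i, Subtype.ext ((hn i).trans h2.symm)⟩
        · rw [List.mem_append, mem_tri] at h2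
          rcases h2 with h2 | ⟨-, i, h2⟩
          · exact absurd hx (h0 _ h2).2
          · exact absurd (hx.symm.trans h2).symm (hc0 i)
      · rintro ⟨i, rfl⟩
        refine ⟨fun e => hc0 i ?_, Or.inl (List.mem_append_right _ ((mem_tri _ _ _).2
          ⟨hx, i, hn i⟩))⟩
        rw [← hn i, ← e, hx]
    · have hbij : Function.Bijective (fun a : {v : ℕ // Occurs (L ++ tri c) v} ⊕ Fin 3 × Bool =>
          (⟨code N a, (hO' _).2 (code_lt N hO a)⟩ :
            {v : ℕ // Occurs (L ++ piece N c ++ tri ![N, N + 1, N + 2]) v})) := by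
        constructor
        · intro a b h
          exact code_inj N hO (congrArg Subtype.val h)
        · rintro ⟨w, hw⟩
          obtain ⟨a, ha⟩ := code_surj N hO w ((hO' w).1 hw)
          exact ⟨a, Subtype.ext ha⟩
      have hadj : ∀ a b, (graphOf (L ++ piece N c ++ tri ![N, N + 1, N + 2])).Adj
          (Equiv.ofBijective _ hbij a) (Equiv.ofBijective _ hbij b) ↔
          (ins (graphOf (L ++ tri c)) x n).Adj a b := by
        have hno : ∀ u v, N ≤ u → (u, v) ∉ L := fun u v h h' => by
          have := (hLN _ h').1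
          simp only at this
          omega
        have hno' : ∀ u v, N ≤ v → (u, v) ∉ L := fun u v h h' => by
          have := (hLN _ h').2
          simp only at this
          omega
        have hm : ∀ u v, (u, v) ∈ L ++ piece N c ++ tri ![N, N + 1, N + 2] ↔ _ := mem_L' L N c
        intro a q
        show (Equiv.ofBijective _ hbij a ≠ Equiv.ofBijective _ hbij q ∧
          ((code N a, code N q) ∈ L ++ piece N c ++ tri ![N, N + 1, N + 2] ∨
            (code N q, code N a) ∈ L ++ piece N c ++ tri ![N, N + 1, N + 2])) ↔ _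
        have hne : ∀ u v, (u, v) ∈ L ++ piece N c ++ tri ![N, N + 1, N + 2] ∨
            (v, u) ∈ L ++ piece N c ++ tri ![N, N + 1, N + 2] → u ≠ v := by
          rintro u v (h | h)
          · exact hS'.2 _ h
          · exact (hS'.2 _ h).symm
        have key : (Equiv.ofBijective _ hbij a ≠ Equiv.ofBijective _ hbij q ∧
          ((code N a, code N q) ∈ L ++ piece N c ++ tri ![N, N + 1, N + 2] ∨
            (code N q, code N a) ∈ L ++ piece N c ++ tri ![N, N + 1, N + 2])) ↔
          ((code N a, code N q) ∈ L ++ piece N c ++ tri ![N, N + 1, N + 2] ∨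
            (code N q, code N a) ∈ L ++ piece N c ++ tri ![N, N + 1, N + 2]) := by
          refine ⟨fun h => h.2, fun h => ⟨fun e => hne _ _ h ?_, h⟩⟩
          exact congrArg Subtype.val e
        rw [key, hm, hm]
        rcases a with u | ⟨i, b⟩ <;> rcases q with v | ⟨j, b'⟩
        · have hu := (hO u.1).1 u.2
          have hv := (hO v.1).1 v.2
          show (((u.1, v.1) ∈ L ∨ (∃ i : Fin 3, u.1 = N + 3 + i ∧ v.1 = c i) ∨
              (∃ i j : Fin 3, i ≠ j ∧ u.1 = N + 3 + i ∧ v.1 = N + j) ∨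
                (u.1 = 0 ∧ ∃ i : Fin 3, v.1 = N + i)) ∨
            ((v.1, u.1) ∈ L ∨ (∃ i : Fin 3, v.1 = N + 3 + i ∧ u.1 = c i) ∨
              (∃ i j : Fin 3, i ≠ j ∧ v.1 = N + 3 + i ∧ u.1 = N + j) ∨
                (v.1 = 0 ∧ ∃ i : Fin 3, u.1 = N + i))) ↔
            (u ≠ v ∧ ((u.1, v.1) ∈ L ++ tri c ∨ (v.1, u.1) ∈ L ++ tri c)) ∧ u ≠ x ∧ v ≠ x
          constructor
          · rintro ((h | ⟨i, h, h'⟩ | ⟨i, j, hij, h, h'⟩ | ⟨h, i, h'⟩) |
              (h | ⟨i, h, h'⟩ | ⟨i, j, hij, h, h'⟩ | ⟨h, i, h'⟩))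
            · have h4 := h0 _ h
              refine ⟨⟨fun e => hS.2 _ (List.mem_append_left _ h) (congrArg Subtype.val e),
                Or.inl (List.mem_append_left _ h)⟩, ?_, ?_⟩
              · rintro rfl
                exact h4.1 hx
              · rintro rfl
                exact h4.2 hx
            · omega
            · omega
            · omega
            · have h4 := h0 _ h
              refine ⟨⟨fun e => hS.2 _ (List.mem_append_left _ h) (congrArg Subtype.val e).symm,
                Or.inr (List.mem_append_left _ h)⟩, ?_, ?_⟩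
              · rintro rfl
                exact h4.2 hx
              · rintro rfl
                exact h4.1 hx
            · omega
            · omega
            · omega
          · rintro ⟨⟨h1, h2⟩, h3, h4⟩
            rw [List.mem_append, List.mem_append, mem_tri, mem_tri] at h2
            rcases h2 with (h2 | ⟨h2, -⟩) | (h2 | ⟨h2, -⟩)
            · exact Or.inl (Or.inl h2)
            · exact absurd (Subtype.ext (h2.trans hx.symm)) h3
            · exact Or.inr (Or.inl h2)
            · exact absurd (Subtype.ext (h2.trans hx.symm)) h4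
        · have hu := (hO u.1).1 u.2
          have hj := j.2
          show (((u.1, N + (j : ℕ) + 3 * b'.toNat) ∈ L ∨
              (∃ i : Fin 3, u.1 = N + 3 + i ∧ N + (j : ℕ) + 3 * b'.toNat = c i) ∨
              (∃ i j' : Fin 3, i ≠ j' ∧ u.1 = N + 3 + i ∧ N + (j : ℕ) + 3 * b'.toNat = N + j') ∨
                (u.1 = 0 ∧ ∃ i : Fin 3, N + (j : ℕ) + 3 * b'.toNat = N + i)) ∨
            ((N + (j : ℕ) + 3 * b'.toNat, u.1) ∈ L ∨
              (∃ i : Fin 3, N + (j : ℕ) + 3 * b'.toNat = N + 3 + i ∧ u.1 = c i) ∨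
              (∃ i j' : Fin 3, i ≠ j' ∧ N + (j : ℕ) + 3 * b'.toNat = N + 3 + i ∧ u.1 = N + j') ∨
                (N + (j : ℕ) + 3 * b'.toNat = 0 ∧ ∃ i : Fin 3, u.1 = N + i))) ↔
            (b' = false ∧ u = x) ∨ (b' = true ∧ u = n j)
          constructor
          · rintro ((h | ⟨i, h, h'⟩ | ⟨i, j', hij, h, h'⟩ | ⟨h, i, h'⟩) |
              (h | ⟨i, h, h'⟩ | ⟨i, j', hij, h, h'⟩ | ⟨h, i, h'⟩))
            · exact absurd h (hno' _ _ (by omega))
            · omega
            · omega
            · have hi := i.2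
              left
              refine ⟨?_, Subtype.ext (h.trans hx.symm)⟩
              cases b'
              · rfl
              · simp only [Bool.toNat_true] at h'
                omega
            · exact absurd h (hno _ _ (by omega))
            · have hi := i.2
              right
              cases b'
              · simp only [Bool.toNat_false] at h
                omega
              · simp only [Bool.toNat_true] at h
                have e : i = j := Fin.ext (by omega)
                subst e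
                exact ⟨rfl, Subtype.ext (h'.trans (hn i).symm)⟩
            · omega
            · omega
          · rintro (⟨rfl, rfl⟩ | ⟨rfl, rfl⟩)
            · refine Or.inl (Or.inr (Or.inr (Or.inr ⟨hx, j, ?_⟩)))
              simp
            · refine Or.inr (Or.inr (Or.inl ⟨j, ?_, hn j⟩))
              simp only [Bool.toNat_true]
              omega
        · have hv := (hO v.1).1 v.2
          have hi := i.2
          show (((N + (i : ℕ) + 3 * b.toNat, v.1) ∈ L ∨
              (∃ i' : Fin 3, N + (i : ℕ) + 3 * b.toNat = N + 3 + i' ∧ v.1 = c i') ∨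
              (∃ i' j' : Fin 3, i' ≠ j' ∧ N + (i : ℕ) + 3 * b.toNat = N + 3 + i' ∧ v.1 = N + j') ∨
                (N + (i : ℕ) + 3 * b.toNat = 0 ∧ ∃ i' : Fin 3, v.1 = N + i')) ∨
            ((v.1, N + (i : ℕ) + 3 * b.toNat) ∈ L ∨
              (∃ i' : Fin 3, v.1 = N + 3 + i' ∧ N + (i : ℕ) + 3 * b.toNat = c i') ∨
              (∃ i' j' : Fin 3, i' ≠ j' ∧ v.1 = N + 3 + i' ∧ N + (i : ℕ) + 3 * b.toNat = N + j') ∨
                (v.1 = 0 ∧ ∃ i' : Fin 3, N + (i : ℕ) + 3 * b.toNat = N + i'))) ↔
            (b = false ∧ v = x) ∨ (b = true ∧ v = n i)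
          constructor
          · rintro ((h | ⟨i', h, h'⟩ | ⟨i', j', hij, h, h'⟩ | ⟨h, i', h'⟩) |
              (h | ⟨i', h, h'⟩ | ⟨i', j', hij, h, h'⟩ | ⟨h, i', h'⟩))
            · exact absurd h (hno _ _ (by omega))
            · have hi' := i'.2
              right
              cases b
              · simp only [Bool.toNat_false] at h
                omega
              · simp only [Bool.toNat_true] at h
                have e : i' = i := Fin.ext (by omega)
                subst e
                exact ⟨rfl, Subtype.ext (h'.trans (hn i').symm)⟩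
            · omega
            · omega
            · exact absurd h (hno' _ _ (by omega))
            · omega
            · omega
            · have hi' := i'.2
              left
              refine ⟨?_, Subtype.ext (h.trans hx.symm)⟩
              cases b
              · rfl
              · simp only [Bool.toNat_true] at h'
                omega
          · rintro (⟨rfl, rfl⟩ | ⟨rfl, rfl⟩)
            · refine Or.inr (Or.inr (Or.inr (Or.inr ⟨hx, i, ?_⟩)))
              simp
            · refine Or.inl (Or.inr (Or.inl ⟨i, ?_, hn i⟩))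
              simp only [Bool.toNat_true]
              omega
        · have hi := i.2
          have hj := j.2
          show (((N + (i : ℕ) + 3 * b.toNat, N + (j : ℕ) + 3 * b'.toNat) ∈ L ∨
              (∃ i' : Fin 3, N + (i : ℕ) + 3 * b.toNat = N + 3 + i' ∧
                N + (j : ℕ) + 3 * b'.toNat = c i') ∨
              (∃ i' j' : Fin 3, i' ≠ j' ∧ N + (i : ℕ) + 3 * b.toNat = N + 3 + i' ∧
                N + (j : ℕ) + 3 * b'.toNat = N + j') ∨
                (N + (i : ℕ) + 3 * b.toNat = 0 ∧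
                  ∃ i' : Fin 3, N + (j : ℕ) + 3 * b'.toNat = N + i')) ∨
            ((N + (j : ℕ) + 3 * b'.toNat, N + (i : ℕ) + 3 * b.toNat) ∈ L ∨
              (∃ i' : Fin 3, N + (j : ℕ) + 3 * b'.toNat = N + 3 + i' ∧
                N + (i : ℕ) + 3 * b.toNat = c i') ∨
              (∃ i' j' : Fin 3, i' ≠ j' ∧ N + (j : ℕ) + 3 * b'.toNat = N + 3 + i' ∧
                N + (i : ℕ) + 3 * b.toNat = N + j') ∨
                (N + (j : ℕ) + 3 * b'.toNat = 0 ∧
                  ∃ i' : Fin 3, N + (i : ℕ) + 3 * b.toNat = N + i'))) ↔ b ≠ b' ∧ i ≠ j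
          constructor
          · rintro ((h | ⟨i', h, h'⟩ | ⟨i', j', hij, h, h'⟩ | ⟨h, i', h'⟩) |
              (h | ⟨i', h, h'⟩ | ⟨i', j', hij, h, h'⟩ | ⟨h, i', h'⟩))
            · exact absurd h (hno _ _ (by omega))
            · have := hcN i'
              omega
            · have h1 := i'.2
              have h2 := j'.2
              cases b <;> cases b' <;> simp only [Bool.toNat_false, Bool.toNat_true] at h h'
              · omega
              · omega
              · refine ⟨by decide, fun e => hij (Fin.ext ?_)⟩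
                subst e
                omega
              · omega
            · omega
            · exact absurd h (hno _ _ (by omega))
            · have := hcN i'
              omega
            · have h1 := i'.2
              have h2 := j'.2
              cases b <;> cases b' <;> simp only [Bool.toNat_false, Bool.toNat_true] at h h'
              · omega
              · refine ⟨by decide, fun e => hij (Fin.ext ?_)⟩
                subst e
                omega
              · omega
              · omega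
            · omega
          · rintro ⟨h1, h2⟩
            cases b <;> cases b'
            · exact absurd rfl h1
            · refine Or.inr (Or.inr (Or.inr (Or.inl ⟨j, i, h2.symm, ?_, ?_⟩)))
              · simp only [Bool.toNat_true]
                omega
              · simp only [Bool.toNat_false]
                omega
            · refine Or.inl (Or.inr (Or.inr (Or.inl ⟨i, j, h2, ?_, ?_⟩)))
              · simp only [Bool.toNat_true]
                omega
              · simp only [Bool.toNat_false]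
                omega
            · exact absurd rfl h1
      refine ⟨(⟨Equiv.ofBijective _ hbij, fun {a b} => hadj a b⟩ : ins (graphOf (L ++ tri c)) x n ≃g
        graphOf (L ++ piece N c ++ tri ![N, N + 1, N + 2])).symm, ?_, ?_⟩
      · intro y hy
        apply (RelIso.symm_apply_eq _).2
        apply Subtype.ext
        rw [hy]
        exact hx.symm
      · intro y i hy
        apply (RelIso.symm_apply_eq _).2
        apply Subtype.ext
        rw [hy]
        show _ = N + (i : ℕ) + 3 * 0
        fin_cases i <;> simp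

end Pool.Agent.HAM.H93
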