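import Pool.Agent.Helper43_HAM.Stmts

/-! LPE: the order of the edge list is irrelevant. -/

namespace Pool.Agent.HAM.H93

theorem occurs_congr {l l' : List (ℕ × ℕ)} (h : ∀ p, p ∈ l ↔ p ∈ l') (v : ℕ) :
    Occurs l v ↔ Occurs l' v := by
  unfold Occurs
  simp only [h]

theorem lpe : LpeStmt := by
  intro l l' hp hs
  refine ⟨⟨?_, ?_⟩, fun v => occurs_congr (fun p => hp.mem_iff) v, ⟨?_⟩⟩
  · refine hp.pairwise hs.1 ?_
    intro p q h
    refine ⟨h.1.symm, fun e => h.2 ?_⟩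
    rw [e, Prod.swap_swap]
  · intro p hpl
    exact hs.2 p (hp.mem_iff.2 hpl)
  · refine ⟨Equiv.subtypeEquivRight fun v => occurs_congr (fun p => hp.mem_iff) v, ?_⟩
    intro u v
    show (_ ≠ _ ∧ ((u.1, v.1) ∈ l' ∨ (v.1, u.1) ∈ l')) ↔ (u ≠ v ∧ ((u.1, v.1) ∈ l ∨ (v.1, u.1) ∈ l))
    rw [hp.mem_iff, hp.mem_iff]
    simp only [ne_eq, EmbeddingLike.apply_eq_iff_eq]

end Pool.Agent.HAM.H93
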